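import Pool.Agent.W647.T2

/-!
# Chern-Connes characters of `K₀(ℤ[Γ])` for groups with torsion

Let `Γ` be a group, possibly with torsion, all of whose finitely generated subgroups `H` are
residually finite (or satisfy a weaker condition on conjugacy classes) and have no element of
order `p` for some prime `p` depending on `H`; for example a group which is linear over a field.
Every cycle of even dimension over `ℤ[Γ]`, with values in `ℤ`, takes the same value on a finitely
generated projective `ℤ[Γ]`-module as on the free module of the same rank. This is what the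
K-theoretic Farrell-Jones conjecture predicts: the classes coming from the virtually cyclic
subgroups have this property by Swan's theorem.
-/

set_option autoImplicit false

namespace Pool.Agent.Results.MP_e40716_gt.ChernConnesTorsion

open Pool.Agent.H23R2 Pool.Agent.H23R2.Ch
open Pool.Agent.H26R2.Bass (tau tau_eq ind ind_comm isConj_mul_comm)
open Pool.Agent.H23R2.Cyc (ell ell_single ell_eq_sum tf tf_apply)
open Pool.Agent.W647.T1 (aug aug_single aug_eq_ell trace_value)

universe u v w z

lemma aug_eq_sum {G : Type u} [Group G] (x : MonoidAlgebra ℤ G) :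
    aug G x = x.coeff.sum fun _ a => a := by
  rw [aug_eq_ell, ell_eq_sum _ x.coeff.support x (fun g hg => Finsupp.mem_support_iff.2 hg),
    Finsupp.sum]
  exact Finset.sum_congr rfl fun g _ => mul_one _

/-- the conditions on finitely generated subgroups -/
lemma cond (G : Type u) [Group G]
    (hG : (∀ H : Subgroup G, H.FG → (∃ p : ℕ, p.Prime ∧ ∀ g ∈ H, g ^ p = 1 → g = 1) ∧
        (Group.ResiduallyFinite H ∨ ∀ g ∈ H, g ≠ 1 →
          ∃ p : ℕ, p.Prime ∧ ∀ j, 1 ≤ j → ∀ c ∈ H, c * g * c⁻¹ ≠ g ^ p ^ j)) ∨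
      (∃ (K : Type w) (_ : Field K) (N : ℕ) (φ : G →* GL (Fin N) K), Function.Injective φ)) :
    ∀ H : Subgroup G, H.FG → (∃ p : ℕ, p.Prime ∧ ∀ g ∈ H, g ^ p = 1 → g = 1) ∧
      ∀ g ∈ H, g ≠ 1 → ∃ p : ℕ, p.Prime ∧ ∀ j, 1 ≤ j → ∀ c ∈ H, c * g * c⁻¹ ≠ g ^ p ^ j := by
  have key : ∀ H : Subgroup G, Group.ResiduallyFinite H → ∀ g ∈ H, g ≠ 1 →
        ∃ p : ℕ, p.Prime ∧ ∀ j, 1 ≤ j → ∀ c ∈ H, c * g * c⁻¹ ≠ g ^ p ^ j := by
    intro H _ g hg hg1
    obtain ⟨p, hp, hc⟩ := Pool.Agent.H290R4.ChernZ.exists_prime (⟨g, hg⟩ : H)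
      (fun h0 => hg1 (congrArg Subtype.val h0))
    refine ⟨p, hp, fun j hj c hcH heq => hc j hj ⟨c, hcH⟩ (Subtype.ext ?_)⟩
    simpa using heq
  rcases hG with h | ⟨K, iK, N, φ, hφ⟩
  · intro H hH
    obtain ⟨h1, h2⟩ := h H hH
    exact ⟨h1, h2.elim (key H) id⟩
  · intro H hH
    have : Group.FG H := (Group.fg_iff_subgroup_fg H).2 hH
    constructor
    · obtain ⟨p, hp, h1⟩ := Pool.Agent.W647.T2.exists_prime_no_torsion (φ.comp H.subtype)
        (hφ.comp H.subtype_injective)
      refine ⟨p, hp, fun g hg hgp => ?_⟩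
      have h2 := h1 ⟨g, hg⟩ (Subtype.ext (by simpa using hgp))
      exact congrArg Subtype.val h2
    · exact key H (Pool.Agent.H290R4.ChernZ.malcev (φ.comp H.subtype)
        (hφ.comp H.subtype_injective))

/-- Let `G` be a group, possibly with torsion, such that either every finitely generated subgroup
`H` has, for some prime `p`, no element of order `p`, and is residually finite (or at least for
every `g ≠ 1` in `H` there is a prime `p` such that `g` is not conjugate in `H` to `g ^ (p ^ j)`
for `j ≥ 1`); or `G` is linear over some field, of any characteristic. Then for every idempotent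
matrix `e` over `ℤ[G]` and every cycle `(Ω, δ, T)` of dimension `2 n ≥ 0` over `ℤ[G]` with values
in `ℤ`, or in any torsion-free abelian group `M` without nonzero elements divisible by all powers
of some prime, `T (tr (e (δ e) ^ (2 n))) = r • T ((δ 1) ^ (2 n))`, where the integer `r` is the
sum of all coefficients of the diagonal entries of `e`, that is, the trace of the idempotent
integer matrix `ε(e)` (the rank of `ℤ ⊗ P` for the projective module `P` defined by `e`). -/
theorem result (G : Type u) [Group G]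
    (hG : (∀ H : Subgroup G, H.FG → (∃ p : ℕ, p.Prime ∧ ∀ g ∈ H, g ^ p = 1 → g = 1) ∧
        (Group.ResiduallyFinite H ∨ ∀ g ∈ H, g ≠ 1 →
          ∃ p : ℕ, p.Prime ∧ ∀ j, 1 ≤ j → ∀ c ∈ H, c * g * c⁻¹ ≠ g ^ p ^ j)) ∨
      (∃ (K : Type w) (_ : Field K) (N : ℕ) (φ : G →* GL (Fin N) K), Function.Injective φ))
    (d : ℕ) (e : Matrix (Fin d) (Fin d) (MonoidAlgebra ℤ G)) (he : e * e = e)
    (M : Type v) [AddCommGroup M] (hM1 : ∀ (c : ℕ) (x : M), c ≠ 0 → c • x = 0 → x = 0)
    (hM2 : ∀ (p : ℕ), p.Prime → ∀ x : M, (∀ m : ℕ, ∃ y : M, p ^ m • y = x) → x = 0)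
    (n : ℕ) (Ω : Type z) [Ring Ω] (𝒜 : ℕ → Submodule ℤ Ω) [GradedAlgebra 𝒜] (δ : Ω →ₗ[ℤ] Ω)
    (T : Ω →ₗ[ℤ] M) (h : IsCycle (2 * n) 𝒜 δ T) (ρ : MonoidAlgebra ℤ G →ₐ[ℤ] Ω)
    (hρ : ∀ a, ρ a ∈ 𝒜 0) :
    T ((e.map ρ) * ((e.map ρ).map δ) ^ (2 * n)).trace =
      (∑ i, (e i i).coeff.sum fun _ a => a) • T ((δ 1) ^ (2 * n)) := by
  classical
  have hsum : (∑ i, (e i i).coeff.sum fun _ a => a) = aug G e.trace := by
    rw [Matrix.trace, map_sum]
    exact Finset.sum_congr rfl fun i _ => (aug_eq_sum _).symm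
  rw [hsum]
  have hH := cond G hG
  rcases Nat.eq_zero_or_pos n with rfl | hn
  · -- degree zero
    have htau : ∀ g : G, g ≠ 1 → ell (ind ℤ g) e.trace = 0 := by
      intro g hg
      have h1 : tau e g = 0 := by
        refine Pool.Agent.H26R2.Bass.bass_of_local ?_ e he g ?_
        · intro H hHfg x hx
          right; left
          have hx1 : (x : G) ≠ 1 := by
            intro h0
            exact hx ⟨1, one_pos, by rw [pow_one]; exact Subtype.ext h0⟩
          obtain ⟨p, hp, hc⟩ := (hH H hHfg).2 x x.2 hx1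
          refine ⟨p, hp, ?_, fun j hj hconj => ?_⟩
          · rw [Int.isUnit_iff]
            have := hp.two_le
            omega
          · obtain ⟨c, hc2⟩ := isConj_iff.1 hconj
            exact hc j hj c c.2 (by simpa using congrArg Subtype.val hc2)
        · rw [Int.isUnit_iff]
          have h2 : orderOf g ≠ 1 := fun h3 => hg (orderOf_eq_one_iff.1 h3)
          omega
      rw [tau_eq, Pool.Agent.H23R2.Cyc.tf_apply] at h1
      rw [← h1, Matrix.trace, map_sum]
      rfl
    have hclass : ∀ g k : G, IsConj g k →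
        T (ρ (MonoidAlgebra.single g 1)) = T (ρ (MonoidAlgebra.single k 1)) := by
      intro g k hgk
      obtain ⟨c, hc⟩ := isConj_iff.1 hgk
      have h1 : (MonoidAlgebra.single k 1 : MonoidAlgebra ℤ G) =
          MonoidAlgebra.single c 1 * MonoidAlgebra.single (g * c⁻¹) 1 := by
        rw [MonoidAlgebra.single_mul_single, ← hc, mul_one]
        congr 1
        group
      have h2 : (MonoidAlgebra.single g 1 : MonoidAlgebra ℤ G) =
          MonoidAlgebra.single (g * c⁻¹) 1 * MonoidAlgebra.single c 1 := by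
        rw [MonoidAlgebra.single_mul_single, mul_one]
        congr 1
        group
      rw [h1, h2, map_mul ρ, map_mul ρ, h.trace 0 0 _ (hρ _) _ (hρ _)]
      simp
    have hval := trace_value (T.toAddMonoidHom.comp (ρ : MonoidAlgebra ℤ G →+* Ω).toAddMonoidHom)
      hclass e.trace htau
    have hclass2 : ∀ g k : G, IsConj g k →
        (aug G).toAddMonoidHom (MonoidAlgebra.single g 1) =
        (aug G).toAddMonoidHom (MonoidAlgebra.single k 1) := by
      intro g k _
      show aug G _ = aug G _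
      rw [aug_single, aug_single]
    have hval2 := trace_value (aug G).toAddMonoidHom hclass2 e.trace htau
    have hr : aug G e.trace = ell (ind ℤ (1 : G)) e.trace := by
      have h5 : (aug G) e.trace = ell (ind ℤ (1 : G)) e.trace • (aug G) 1 := hval2
      rw [h5, map_one]
      simp
    have h6 : T (ρ e.trace) = ell (ind ℤ (1 : G)) e.trace • T (ρ 1) := hval
    have h7 : (e.map ρ).trace = ρ e.trace := by
      simp [Matrix.trace, Matrix.map_apply, map_sum]
    rw [mul_zero, pow_zero, pow_zero, mul_one, h7, h6, map_one, ← hr]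
  · -- positive degree
    obtain ⟨⟨p₀, hp₀, hp₀'⟩, hH2⟩ := hH (Pool.Agent.H290R4.ChernZ.supp e)
      (Pool.Agent.H290R4.ChernZ.supp_fg e)
    have h2 := Pool.Agent.H290R4.ChernZ.vanish (k := ℤ) (T := T) (ρ := ρ) e he
      ⟨p₀, hp₀, hM2 p₀ hp₀, hp₀'⟩ hn h hρ (by
        intro g hg hg1 hall
        exfalso
        obtain ⟨p, hp, hc⟩ := hH2 g hg hg1
        obtain ⟨j, hj, c, hcH, heq⟩ := hall p hp (hM2 p hp)
        exact hc j hj c hcH heq)
    have h3 := hM1 _ _ (Nat.centralBinom_ne_zero n) h2
    have h4 : δ 1 = 0 := by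
      have h5 := h.leibniz 0 1 SetLike.GradedOne.one_mem 1
      rw [mul_one, pow_zero, one_mul, one_mul, mul_one] at h5
      exact left_eq_add.1 h5
    rw [h3, h4, zero_pow (by omega), map_zero, smul_zero]

end Pool.Agent.Results.MP_e40716_gt.ChernConnesTorsion
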