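import Pool.Agent.W647.KG7

/-!
# The Chern characters of the higher K-groups of group rings at elements of finite order

The Farrell–Jones conjecture predicts that `K_n(ℤ[Γ]) ⊗ ℚ` is the direct sum, over the conjugacy
classes of finite cyclic subgroups `C` and over `p + q = n`, of summands of
`H_p(C_Γ(C); ℚ) ⊗ K_q(ℤ[C])`. As `K_q(ℤ[C]) = 0` for `q < -1`, the components at the elements
`g ≠ 1` of finite order of the Chern character (Dennis, Connes, Karoubi, Loday),
`K_n(ℤ[Γ]) → H_{n+2k}(C_Γ(g) / ⟨g⟩; ℚ)`, must be zero for all `k ≥ 1`. We prove this, with an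
explicit bound for the torsion, on all integral `n`-cycles of the groups `GL_d(R[Γ])`, when
`C_Γ(g) / ⟨g⟩` is of type `FP_∞`, and `Γ` has no element of order `q` for some prime `q`. More
generally this holds for the characters with values in `H_{n+2k}(Q; ℚ)`, for all homomorphisms of
`C_Γ(g) / ⟨g⟩` to groups `Q` of type `FP_∞`.
-/

set_option autoImplicit false

namespace Pool.Agent.Results.MP_e40716_gt.HigherCentralizerVanishing

open Pool.Agent.W647.HX1 Pool.Agent.W647.HZ1 Pool.Agent.W647.KN Pool.Agent.W647.KG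

universe u

/-- Let `n = m + 1 ≥ 1` and `k ≥ 1`, let `Γ` be a group which has no element of order `q`, for some
prime `q`, and `g ≠ 1` an element of finite order of `Γ`. Let `Q` be a group of type `FP_∞`, or a
group for which `H_{n+2k}(Q; ℤ)` is finitely generated, and let `ρ` be a homomorphism from the
centralizer of `g` to `Q` with `ρ g = 1` (for example the projection to `C_Γ(g) / ⟨g⟩`). Let
`r : Γ → Q` be a map with `r (z x) = ρ(z) r(x)` for all `z` in the centralizer of `g`, and let `t y`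
be an element with `t y * y * (t y)⁻¹ = g` for each conjugate `y` of `g`. Then there is an integer
`a ≥ 1`, whose prime factors are orders of elements of `Γ`, such that for all rings `R` with a trace
`T₀ : R → ℤ` (for example `R = ℤ`), all integral `n`-cycles `z` of the groups `GL_d(R[Γ])`, all
abelian groups `A`, and all alternating cocycles `c` of degree `n + 2 k` of `Q` with values in `A`,
the number `τ` at `g` of `z` and of the cochain `c ∘ r` satisfies
`a (2 k + 2) ((2 k)! / k!) (n + 2 k + 2)! τ = 0`; so `τ = 0` if `A` is torsion-free. -/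
theorem result (Γ : Type) [Group Γ] (g : Γ) (_hg1 : g ≠ 1) (hg : IsOfFinOrder g)
    (Q : Type) [Group Q] (ρ : Subgroup.centralizer {g} →* Q)
    (hρ : ∀ z : Subgroup.centralizer {g}, (z : Γ) = g → ρ z = 1) (r : Γ → Q)
    (hr : ∀ (z : Subgroup.centralizer {g}) (x : Γ), r (z * x) = ρ z * r x)
    (m k : ℕ) (hk : 1 ≤ k)
    (h : TypeFPInf Q ∨ Module.Finite ℤ (groupHomology (Rep.trivial ℤ Q ℤ) (m + 1 + 2 * k)))
    (q : ℕ) (hq : q.Prime) (hqΓ : ∀ y : Γ, orderOf y ≠ q)
    (t : Γ → Γ) (ht : ∀ y, IsConj y g → t y * y * (t y)⁻¹ = g) :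
    ∃ a : ℕ, a ≠ 0 ∧ (∀ p : ℕ, p.Prime → p ∣ a → ∃ y : Γ, orderOf y = p) ∧
      ∀ (R : Type) [Ring R] (T₀ : R →+ ℤ), (∀ x y, T₀ (x * y) = T₀ (y * x)) →
      ∀ (d : Type) [Fintype d] [DecidableEq d] (z : (Fin (m + 1) → GLG d R Γ) →₀ ℤ), IsCyc z →
      ∀ (A : Type u) [AddCommGroup A] (c : (Fin (m + 1 + 2 * k + 1) → Q) → A), IsAltCocycle c →
        (a * ((2 * k + 2) * (2 * k).descFactorial k * (m + 1 + 2 * k + 2).factorial)) •
          cycleNumberAt T₀ g t k (fun v => c (r ∘ v)) z = 0 ∧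
        ((∀ (n : ℕ) (b : A), n ≠ 0 → n • b = 0 → b = 0) →
          cycleNumberAt T₀ g t k (fun v => c (r ∘ v)) z = 0) := by
  have hfin : Module.Finite ℤ (groupHomology (Rep.trivial ℤ Q ℤ) (m + 1 + 2 * k)) := by
    rcases h with h | h
    · exact TypeFPInf_finite h _
    · exact h
  obtain ⟨a, ha, ha2, ha3⟩ := twisted_zero (show k ≠ 0 by omega) hfin q hq hqΓ hg ρ hρ r hr ht
  refine ⟨a, ha, ha2, fun R _ T₀ hT d _ _ z hz A _ c hc => ?_⟩
  have h1 : (a * ((2 * k + 2) * (2 * k).descFactorial k * (m + 1 + 2 * k + 2).factorial)) •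
      cycleNumberAt T₀ g t k (fun v => c (r ∘ v)) z = 0 := ha3 R T₀ hT d z hz A c hc
  refine ⟨h1, fun hA => hA _ _ ?_ h1⟩
  have h2 : (2 * k).descFactorial k ≠ 0 := by
    rw [Ne, Nat.descFactorial_eq_zero_iff_lt]
    omega
  exact mul_ne_zero ha (mul_ne_zero (mul_ne_zero (by omega) h2) (Nat.factorial_ne_zero _))

end Pool.Agent.Results.MP_e40716_gt.HigherCentralizerVanishing
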